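import Pool.Agent.Hhelper93.KTwo.Fn

/-!
# The crossings of the strands
-/

set_option autoImplicit false

namespace Pool.Agent.KTwo

open Set

/-- `F` and `G` are equal at `m` only, `G` is smaller before, `F` after. -/
def Cr (F G : ℝ → ℝ) (a b m : ℝ) : Prop :=
  a < m ∧ m < b ∧ F m = G m ∧ (∀ s ∈ Ico a m, G s < F s) ∧ ∀ s ∈ Ioc m b, F s < G s

theorem cross_fn {F G : ℝ → ℝ} {a b : ℝ} (hab : a < b) (hF : Continuous F) (hG : Continuous G)
    (h1 : G a < F a) (h2 : F b < G b)
    (hd : ∀ x y, a ≤ x → x < y → y ≤ b → F y - G y < F x - G x) : ∃ m, Cr F G a b m := by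
  have hc : ContinuousOn (fun s => F s - G s) (Icc a b) := (hF.sub hG).continuousOn
  have h3 := intermediate_value_Icc' hab.le hc
  obtain ⟨m, hm, hm0⟩ := h3 (show (0 : ℝ) ∈ Icc (F b - G b) (F a - G a) from
    ⟨by linarith, by linarith⟩)
  simp only at hm0
  have ha : a < m := by
    rcases hm.1.lt_or_eq with h | h
    · exact h
    · exfalso; rw [← h] at hm0; linarith
  have hb : m < b := by
    rcases hm.2.lt_or_eq with h | h
    · exact h
    · exfalso; rw [h] at hm0; linarith
  refine ⟨m, ha, hb, by linarith, fun s hs => ?_, fun s hs => ?_⟩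
  · have := hd s m hs.1 hs.2 hb.le
    linarith
  · have := hd m s ha.le hs.1 hs.2
    linarith

theorem Cr.unique {F G : ℝ → ℝ} {a b m s : ℝ} (h : Cr F G a b m) (h1 : a ≤ s) (h2 : s ≤ b)
    (h3 : F s = G s) : s = m := by
  rcases lt_trichotomy s m with h4 | h4 | h4
  · have := h.2.2.2.1 s ⟨h1, h4⟩
    linarith
  · exact h4
  · have := h.2.2.2.2 s ⟨h4, h2⟩
    linarith

theorem al_cont (n i j : ℕ) : Continuous (al n i j) := by
  unfold al
  fun_prop

theorem be_cont (n i j : ℕ) : Continuous (be n i j) := by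
  unfold be
  fun_prop

/-- The steep strand. -/
noncomputable def st (n i j : ℕ) (φ : ℝ) : ℝ := be n i j (φ - per n)

theorem st_cont (n i j : ℕ) : Continuous (st n i j) :=
  (be_cont n i j).comp (continuous_id.sub continuous_const)

theorem st_eq {n i j : ℕ} {φ : ℝ} (h : φ ≤ 2 * j + 3) :
    st n i j φ = i * bd n + (2 * j + 3 + 2 * n - φ) + (mx n - i * bd n) * (2 * j + 3 - φ) := by
  unfold st
  rw [be_steep (by unfold per; linarith)]
  unfold per
  ring

theorem st_flat {n i j : ℕ} {φ : ℝ} (h : 2 * (j : ℝ) + 3 ≤ φ) :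
    st n i j φ = i * bd n + (2 * j + 3 + 2 * n - φ) := by
  unfold st
  rw [be_flat (by unfold per; linarith)]
  unfold per
  ring

/-- The crossing with the first strand. -/
theorem crossA {n i j i' j' : ℕ} (hi' : i' < n) (hj' : j' < n) (hii : i < i') (hjj : j < j') :
    ∃ m, Cr (st n i j) (al n i' j') (2 * j + 2) (2 * j + 3) m := by
  have c0 := n_nonneg n
  have c1 := cast_succ_le hjj
  have c2 := cast_succ_le hj'
  have c3 := n_nonneg j
  have b1 := band_le n hii
  have b2 := band_top hi'
  have b3 := bd_ge n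
  have b4 := bd_pos n
  have b5 := band_top (hii.trans hi')
  have hsq : 0 ≤ (n : ℝ) ^ 2 := by positivity
  refine cross_fn (by linarith) (st_cont _ _ _) (al_cont _ _ _) ?_ ?_ ?_
  · have := al_le (n := n) (i := i') (j := j') (s := 2 * j + 2) (by linarith) (by linarith)
    rw [st_eq (by linarith)]
    nlinarith
  · have := al_ge (n := n) (i := i') (j := j') (s := 2 * j + 3) hj' (by linarith) (by linarith)
    rw [st_eq le_rfl]
    nlinarith
  · intro x y hx hxy hy
    rw [st_eq hy, st_eq (by linarith)]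
    unfold al
    have h1 : 0 < (y - x) * (1 + (mx n - i * bd n) - (2 * j' + 1 - x - y)) := by
      apply mul_pos
      · linarith
      · linarith
    nlinarith

/-- The crossing with the second strand. -/
theorem crossC {n i j i' j' : ℕ} (hi' : i' < n) (hj' : j' < n) (hii : i < i') (hjj : j < j') :
    ∃ m, Cr (st n i j) (be n i' j') (2 * j + 2) (2 * j + 3) m := by
  have c0 := n_nonneg n
  have c1 := cast_succ_le hjj
  have c2 := cast_succ_le hj'
  have c3 := n_nonneg j
  have b1 := band_le n hii
  have b2 := band_top hi'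
  have b3 := bd_ge n
  have b4 := bd_pos n
  have b5 := band_top (hii.trans hi')
  have hsq : 0 ≤ (n : ℝ) ^ 2 := by positivity
  refine cross_fn (by linarith) (st_cont _ _ _) (be_cont _ _ _) ?_ ?_ ?_
  · rw [be_pos hj' (by linarith), st_eq (by linarith)]
    nlinarith
  · rw [be_pos hj' (by linarith), st_eq le_rfl]
    nlinarith
  · intro x y hx hxy hy
    rw [st_eq hy, st_eq (by linarith), be_pos hj' (by linarith), be_pos hj' (by linarith)]
    have h1 : 0 < (y - x) * (mx n - i * bd n) := by
      apply mul_pos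
      · linarith
      · linarith
    nlinarith

/-- The crossing with the wrapped strand. -/
theorem crossD {n i j i' j' : ℕ} (hi' : i' < n) (hj : j < n) (hii : i < i') (hjj : j' < j) :
    ∃ m, Cr (st n i j) (st n i' j') (2 * j + 2) (2 * j + 3) m := by
  have c0 := n_nonneg n
  have c1 := cast_succ_le hjj
  have c2 := cast_succ_le hj
  have c3 := n_nonneg j
  have c4 := n_nonneg j'
  have b1 := band_le n hii
  have b2 := band_top hi'
  have b3 := bd_ge n
  have b4 := bd_pos n
  have b5 := band_top (hii.trans hi')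
  have hsq : 0 ≤ (n : ℝ) ^ 2 := by positivity
  refine cross_fn (by linarith) (st_cont _ _ _) (st_cont _ _ _) ?_ ?_ ?_
  · rw [st_flat (j := j') (by linarith), st_eq (j := j) (by linarith)]
    nlinarith
  · rw [st_flat (j := j') (by linarith), st_eq (j := j) le_rfl]
    nlinarith
  · intro x y hx hxy hy
    rw [st_eq (j := j) hy, st_eq (j := j) (φ := x) (by linarith),
      st_flat (j := j') (φ := y) (by linarith), st_flat (j := j') (φ := x) (by linarith)]
    have h1 : 0 < (y - x) * (mx n - i * bd n) := by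
      apply mul_pos
      · linarith
      · linarith
    nlinarith

/-- The strands which cross the steep part of `(i, j)`. -/
theorem on_window {n i' j j' : ℕ} (hj : j < n) (hne : j ≠ j') {φ y : ℝ} (h1 : 2 * (j : ℝ) + 2 < φ)
    (h2 : φ < 2 * j + 3) (h : On n i' j' φ y) :
    (j < j' ∧ (y = al n i' j' φ ∨ y = be n i' j' φ)) ∨ (j' < j ∧ y = st n i' j' φ) := by
  rcases h with ⟨h3, h⟩ | ⟨h3, h⟩
  · left
    refine ⟨?_, h⟩
    have h4 : (j : ℝ) < j' := by linarith
    exact_mod_cast h4
  · right
    refine ⟨?_, h⟩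
    by_contra h4
    have h5 : j < j' := by omega
    have := cast_succ_le h5
    linarith

theorem window_on {n i j : ℕ} {φ : ℝ} (h1 : 2 * (j : ℝ) + 2 ≤ φ) : On n i j φ (st n i j φ) :=
  Or.inr ⟨h1, rfl⟩

end Pool.Agent.KTwo
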