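import Pool.Agent.Hhelper93.KTwo.Cross
import Pool.Agent.Hhelper93.KBip.Draw

/-!
# The drawing
-/

set_option autoImplicit false

namespace Pool.Agent.KTwo

open Set
open Pool.Agent.KBip (JArc)
open Pool.Agent.CLow3 (TopGraph CrossAt)

/-- The unit of angle. -/
noncomputable def un (n : ℕ) : ℝ := 2 * Real.pi / per n

theorem per_pos (n : ℕ) : 0 < per n := by
  have := n_nonneg n
  unfold per
  linarith

theorem un_pos (n : ℕ) : 0 < un n := by
  have := per_pos n
  have := Real.pi_pos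
  unfold un
  positivity

theorem per_un (n : ℕ) : per n * un n = 2 * Real.pi := by
  have := per_pos n
  unfold un
  field_simp

/-- The point with angle `φ` (in units) and height `y`. -/
noncomputable def E (n : ℕ) (φ y : ℝ) : ℂ :=
  (0 : ℂ) + ((Real.exp y : ℝ) : ℂ) * Complex.exp (((φ * un n : ℝ) : ℂ) * Complex.I)

theorem E_add (n : ℕ) (φ y : ℝ) : E n (φ + per n) y = E n φ y := by
  unfold E
  congr 2
  rw [Complex.exp_eq_exp_iff_exists_int]
  refine ⟨1, ?_⟩
  rw [add_mul, per_un]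
  push_cast
  ring

theorem E_sub (n : ℕ) (φ y : ℝ) : E n (φ - per n) y = E n φ y := by
  have := E_add n (φ - per n) y
  rw [sub_add_cancel] at this
  exact this.symm

/-- Equality of two points. -/
theorem E_eq {n : ℕ} {φ φ' y y' : ℝ} (h : E n φ y = E n φ' y') :
    y = y' ∧ ∃ k : ℤ, φ = φ' + k * per n := by
  have h1 := add_left_cancel h
  have hn := congrArg norm h1
  rw [norm_mul, norm_mul, Complex.norm_exp_ofReal_mul_I, Complex.norm_exp_ofReal_mul_I, mul_one,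
    mul_one, Complex.norm_real, Complex.norm_real, Real.norm_of_nonneg (Real.exp_pos _).le,
    Real.norm_of_nonneg (Real.exp_pos _).le] at hn
  have hy := Real.exp_injective hn
  subst hy
  refine ⟨rfl, ?_⟩
  have hr0 : ((Real.exp y : ℝ) : ℂ) ≠ 0 := by exact_mod_cast (Real.exp_pos y).ne'
  have h2 := mul_left_cancel₀ hr0 h1
  rw [Complex.exp_eq_exp_iff_exists_int] at h2
  obtain ⟨k, hk⟩ := h2
  refine ⟨k, ?_⟩
  have h3 : φ * un n = φ' * un n + k * (2 * Real.pi) := by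
    have h4 : ((φ * un n : ℝ) : ℂ) * Complex.I =
        (((φ' * un n : ℝ) : ℂ) + k * (2 * Real.pi)) * Complex.I := by
      rw [hk]; ring
    have h5 := mul_right_cancel₀ Complex.I_ne_zero h4
    exact_mod_cast h5
  rw [← per_un n] at h3
  have h4 : φ * un n = (φ' + k * per n) * un n := by
    rw [h3]; ring
  exact mul_right_cancel₀ (un_pos n).ne' h4

theorem int_zero {P x y : ℝ} {k : ℤ} (hP : 0 < P) (h : x = y + k * P) (h1 : x - y < P)
    (h2 : y - x < P) : x = y := by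
  have h3 : (k : ℝ) < 1 := by
    by_contra h4
    push Not at h4
    nlinarith
  have h4 : (-1 : ℝ) < k := by
    by_contra h4
    push Not at h4
    nlinarith
  have h5 : k < 1 := by exact_mod_cast h3
  have h6 : -1 < k := by exact_mod_cast h4
  have h7 : k = 0 := by omega
  rw [h7] at h
  simpa using h

theorem E_inj {n : ℕ} {φ φ' y y' : ℝ} (h0 : 0 ≤ φ) (h1 : φ < per n) (h0' : 0 ≤ φ')
    (h1' : φ' < per n) (h : E n φ y = E n φ' y') : φ = φ' ∧ y = y' := by
  obtain ⟨hy, k, hk⟩ := E_eq h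
  exact ⟨int_zero (per_pos n) hk (by linarith) (by linarith), hy⟩

/-- The edge `(i, j)`. -/
noncomputable def Arc (n i j : ℕ) : Set ℂ :=
  (fun s => E n s (al n i j s)) '' Icc 0 (2 * (j : ℝ) + 1) ∪
    (fun s => E n s (be n i j s)) '' Icc (2 * (j : ℝ) - 2 * n) (2 * (j : ℝ) + 1)

theorem on_mem {n i j : ℕ} {φ y : ℝ} (hj : j < n) (h0 : 0 ≤ φ) (h1 : φ < per n)
    (h : On n i j φ y) : E n φ y ∈ Arc n i j := by
  have c1 := cast_succ_le hj
  have c2 := n_nonneg j
  unfold per at h1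
  rcases h with ⟨h2, rfl | rfl⟩ | ⟨h2, rfl⟩
  · exact Or.inl ⟨φ, ⟨h0, h2⟩, rfl⟩
  · exact Or.inr ⟨φ, ⟨by linarith, h2⟩, rfl⟩
  · refine Or.inr ⟨φ - per n, ⟨?_, ?_⟩, ?_⟩
    · unfold per; linarith
    · unfold per; linarith
    · exact E_sub _ _ _

theorem mem_on {n i j : ℕ} {z : ℂ} (hj : j < n) (h : z ∈ Arc n i j) :
    ∃ φ y, 0 ≤ φ ∧ φ < per n ∧ On n i j φ y ∧ z = E n φ y := by
  have c1 := cast_succ_le hj
  have c2 := n_nonneg j
  rcases h with ⟨s, ⟨h1, h2⟩, rfl⟩ | ⟨s, ⟨h1, h2⟩, rfl⟩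
  · refine ⟨s, _, h1, ?_, Or.inl ⟨h2, Or.inl rfl⟩, rfl⟩
    unfold per; linarith
  · by_cases h3 : 0 ≤ s
    · refine ⟨s, _, h3, ?_, Or.inl ⟨h2, Or.inr rfl⟩, rfl⟩
      unfold per; linarith
    · push Not at h3
      refine ⟨s + per n, be n i j s, ?_, ?_, Or.inr ⟨?_, ?_⟩, ?_⟩
      · unfold per; linarith
      · linarith
      · unfold per; linarith
      · rw [add_sub_cancel_right]
      · exact (E_add _ _ _).symm

/-- A common point. -/
theorem common {n i j i' j' : ℕ} {z : ℂ} (hj : j < n) (hj' : j' < n) (h : z ∈ Arc n i j)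
    (h' : z ∈ Arc n i' j') :
    ∃ φ y, 0 ≤ φ ∧ φ < per n ∧ On n i j φ y ∧ On n i' j' φ y ∧ z = E n φ y := by
  obtain ⟨φ, y, h0, h1, h2, rfl⟩ := mem_on hj h
  obtain ⟨φ', y', h0', h1', h2', h3⟩ := mem_on hj' h'
  obtain ⟨rfl, rfl⟩ := E_inj h0 h1 h0' h1' h3
  exact ⟨φ, y, h0, h1, h2, h2', rfl⟩

/-- The start vertices. -/
noncomputable def sv (n i : ℕ) : ℂ := E n 0 (i * bd n)

/-- The end vertices. -/
noncomputable def ev (n j : ℕ) : ℂ := E n (2 * j + 2) (mx n + (2 * n + 1))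

/-- The height of the parametrization. -/
noncomputable def hgt (n i j : ℕ) (t : ℝ) : ℝ :=
  if t ≤ 2 * (j : ℝ) + 1 then al n i j t else be n i j (2 * (2 * j + 1) - t)

theorem tip {n : ℕ} (i : ℕ) {j : ℕ} (hj : j < n) :
    al n i j (2 * j + 1) = be n i j (2 * j + 1) := by
  have := n_nonneg j
  rw [be_pos hj (by linarith)]
  unfold al
  ring

theorem hgt_cont {n i j : ℕ} (hj : j < n) : Continuous (hgt n i j) := by
  unfold hgt
  refine Continuous.if_le (al_cont n i j)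
    ((be_cont n i j).comp (continuous_const.sub continuous_id)) continuous_id continuous_const ?_
  intro t ht
  have ht' : t = 2 * (j : ℝ) + 1 := ht
  rw [ht', tip i hj]
  congr 1
  ring

theorem hgt_al {n i j : ℕ} {t : ℝ} (h : t ≤ 2 * (j : ℝ) + 1) : hgt n i j t = al n i j t := by
  unfold hgt
  rw [if_pos h]

theorem hgt_be {n i j : ℕ} {t : ℝ} (hj : j < n) (h : 2 * (j : ℝ) + 1 ≤ t) :
    hgt n i j t = be n i j (2 * (2 * j + 1) - t) := by
  rcases h.lt_or_eq with h1 | h1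
  · unfold hgt
    rw [if_neg (not_le.2 h1)]
  · rw [hgt_al h1.ge, ← h1, tip i hj]
    congr 1
    ring

/-- The parametrization. -/
noncomputable def gam (n i j : ℕ) (t : ℝ) : ℂ :=
  E n ((2 * j + 1) - |t - (2 * j + 1)|) (hgt n i j t)

theorem gam_al {n i j : ℕ} {t : ℝ} (h : t ≤ 2 * (j : ℝ) + 1) :
    gam n i j t = E n t (al n i j t) := by
  unfold gam
  rw [hgt_al h, abs_of_nonpos (by linarith)]
  congr 1
  ring

theorem gam_be {n i j : ℕ} {t : ℝ} (hj : j < n) (h : 2 * (j : ℝ) + 1 ≤ t) :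
    gam n i j t = E n (2 * (2 * j + 1) - t) (be n i j (2 * (2 * j + 1) - t)) := by
  unfold gam
  rw [hgt_be hj h, abs_of_nonneg (by linarith)]
  congr 1
  ring

theorem gam_cont {n i j : ℕ} (hj : j < n) : Continuous (gam n i j) := by
  have := hgt_cont (i := i) hj
  unfold gam E
  fun_prop

theorem gam_image {n i j : ℕ} (hj : j < n) :
    Arc n i j = gam n i j '' Icc 0 (2 * (j : ℝ) + 2 + 2 * n) := by
  have c1 := cast_succ_le hj
  have c2 := n_nonneg j
  apply Set.Subset.antisymm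
  · rintro z (⟨s, ⟨h1, h2⟩, rfl⟩ | ⟨s, ⟨h1, h2⟩, rfl⟩)
    · exact ⟨s, ⟨h1, by linarith⟩, gam_al h2⟩
    · refine ⟨2 * (2 * j + 1) - s, ⟨by linarith, by linarith⟩, ?_⟩
      rw [gam_be hj (by linarith)]
      rw [sub_sub_cancel]
  · rintro z ⟨t, ⟨h1, h2⟩, rfl⟩
    rcases le_total t (2 * (j : ℝ) + 1) with h | h
    · rw [gam_al h]
      exact Or.inl ⟨t, ⟨h1, h⟩, rfl⟩
    · rw [gam_be hj h]
      exact Or.inr ⟨2 * (2 * j + 1) - t, ⟨by linarith, by linarith⟩, rfl⟩

theorem al_lt_be {n i j : ℕ} {s : ℝ} (hj : j < n) (h0 : 0 ≤ s) (h1 : s < 2 * j + 1) :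
    al n i j s < be n i j s := by
  rw [be_pos hj h0]
  have := al_le (n := n) (i := i) h0 h1.le
  linarith

/-- The strands of one edge. -/
theorem mixed {n i j : ℕ} (hj : j < n) {t s : ℝ} (h1 : 0 ≤ t) (h2 : t ≤ 2 * (j : ℝ) + 1)
    (h3 : 2 * (j : ℝ) - 2 * n ≤ s) (h4 : s ≤ 2 * j + 1)
    (h : E n t (al n i j t) = E n s (be n i j s)) : t = 2 * j + 1 ∧ s = 2 * j + 1 := by
  have c1 := cast_succ_le hj
  obtain ⟨hy, k, hk⟩ := E_eq h
  have hts : t = s := by
    have hP : per n = 2 * n + 2 := rfl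
    refine int_zero (per_pos n) hk ?_ ?_
    · rw [hP]; linarith
    · rw [hP]; linarith
  subst hts
  rcases h2.lt_or_eq with h5 | h5
  · exfalso
    have := al_lt_be (i := i) hj h1 h5
    linarith
  · exact ⟨h5, h5⟩

theorem gam_inj {n i j : ℕ} (hj : j < n) :
    Set.InjOn (gam n i j) (Icc 0 (2 * (j : ℝ) + 2 + 2 * n)) := by
  have c1 := cast_succ_le hj
  have c2 := n_nonneg j
  have hP : per n = 2 * n + 2 := rfl
  rintro t ⟨h1, h2⟩ t' ⟨h1', h2'⟩ h
  rcases le_total t (2 * (j : ℝ) + 1) with h3 | h3 <;>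
    rcases le_total t' (2 * (j : ℝ) + 1) with h3' | h3'
  · rw [gam_al h3, gam_al h3'] at h
    obtain ⟨-, k, hk⟩ := E_eq h
    exact int_zero (per_pos n) hk (by rw [hP]; linarith) (by rw [hP]; linarith)
  · rw [gam_al h3, gam_be hj h3'] at h
    obtain ⟨h4, h5⟩ := mixed hj h1 h3 (by linarith) (by linarith) h
    linarith
  · rw [gam_be hj h3, gam_al h3'] at h
    obtain ⟨h4, h5⟩ := mixed hj h1' h3' (by linarith) (by linarith) h.symm
    linarith
  · rw [gam_be hj h3, gam_be hj h3'] at h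
    obtain ⟨-, k, hk⟩ := E_eq h
    have := int_zero (per_pos n) hk (by rw [hP]; linarith) (by rw [hP]; linarith)
    linarith

/-- The edges are Jordan arcs. -/
theorem jarc {n i j : ℕ} (hj : j < n) : JArc (Arc n i j) (sv n i) (ev n j) := by
  have c1 := cast_succ_le hj
  have c2 := n_nonneg j
  refine ⟨0, 2 * (j : ℝ) + 2 + 2 * n, gam n i j, by linarith, (gam_cont hj).continuousOn,
    gam_inj hj, gam_image hj, ?_, ?_⟩
  · rw [gam_al (by linarith)]
    unfold sv al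
    congr 1
    ring
  · rw [gam_be hj (by linarith), be_steep (by linarith)]
    unfold ev
    rw [← E_sub n (2 * j + 2)]
    unfold per
    congr 1 <;> ring

/-- A crossing in the sense of `CrossAt`. -/
theorem crossAt_of {n : ℕ} {S T : Set ℂ} {F G : ℝ → ℝ} {a b m : ℝ} (hF : Continuous F)
    (hG : Continuous G) (h : Cr F G a b m) (hS : ∀ φ, a ≤ φ → φ ≤ b → E n φ (F φ) ∈ S)
    (hT : ∀ φ, a ≤ φ → φ ≤ b → E n φ (G φ) ∈ T) : CrossAt 0 T S (E n m (F m)) := by
  have hu := un_pos n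
  obtain ⟨h1, h2, h3, h4, h5⟩ := h
  refine ⟨a * un n, m * un n, b * un n, fun s => Real.exp (G (s / un n)),
    fun s => Real.exp (F (s / un n)), mul_lt_mul_of_pos_right h1 hu,
    mul_lt_mul_of_pos_right h2 hu, ?_, ?_, ?_, ?_, ?_, ?_, ?_⟩
  · exact (Real.continuous_exp.comp (hG.comp (continuous_id.div_const _))).continuousOn
  · exact (Real.continuous_exp.comp (hF.comp (continuous_id.div_const _))).continuousOn
  · intro s hs
    have g1 : a ≤ s / un n := (le_div_iff₀ hu).2 hs.1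
    have g2 : s / un n ≤ b := (div_le_iff₀ hu).2 hs.2
    have g3 : s / un n * un n = s := div_mul_cancel₀ _ hu.ne'
    have k1 := hT _ g1 g2
    have k2 := hS _ g1 g2
    unfold E at k1 k2
    rw [g3] at k1 k2
    exact ⟨Real.exp_pos _, Real.exp_pos _, k1, k2⟩
  · simp only
    rw [mul_div_cancel_right₀ _ hu.ne', ← h3]
    rfl
  · simp only
    rw [mul_div_cancel_right₀ _ hu.ne', h3]
  · intro s hs
    have g1 : a ≤ s / un n := (le_div_iff₀ hu).2 hs.1
    have g2 : s / un n < m := (div_lt_iff₀ hu).2 hs.2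
    exact Real.exp_lt_exp.2 (h4 _ ⟨g1, g2⟩)
  · intro s hs
    have g1 : m < s / un n := (lt_div_iff₀ hu).2 hs.1
    have g2 : s / un n ≤ b := (div_le_iff₀ hu).2 hs.2
    exact Real.exp_lt_exp.2 (h5 _ ⟨g1, g2⟩)

end Pool.Agent.KTwo
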