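import Pool.Agent.Hhelper93.KTwo.Main

/-!
# The complete bipartite graph
-/

set_option autoImplicit false

namespace Pool.Agent.KTwo

open Set
open Pool.Agent.KBip (JArc)
open Pool.Agent.CLow3 (TopGraph CrossAt)

/-- The positions of the vertices. -/
noncomputable def vpos (n : ℕ) : Fin n ⊕ Fin n → ℂ
  | Sum.inl p => sv n p
  | Sum.inr q => ev n q

/-- The pair of numbers of an edge. -/
def pr {n : ℕ} : Sym2 (Fin n ⊕ Fin n) → ℕ × ℕ :=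
  Sym2.lift ⟨fun x y => match x, y with
    | Sum.inl a, Sum.inr b => ((a : ℕ), (b : ℕ))
    | Sum.inr b, Sum.inl a => ((a : ℕ), (b : ℕ))
    | _, _ => (0, 0), by
      intro x y
      rcases x with a | b <;> rcases y with c | d <;> rfl⟩

/-- The arc of an edge. -/
noncomputable def earc (n : ℕ) (e : Sym2 (Fin n ⊕ Fin n)) : Set ℂ := Arc n (pr e).1 (pr e).2

theorem earc_mk {n : ℕ} (a b : Fin n) :
    earc n (s(Sum.inl a, Sum.inr b) : Sym2 (Fin n ⊕ Fin n)) = Arc n a b := rfl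

theorem mem_edge {n : ℕ} {e : Sym2 (Fin n ⊕ Fin n)} :
    e ∈ (completeBipartiteGraph (Fin n) (Fin n)).edgeSet ↔
    ∃ a b : Fin n, e = s(Sum.inl a, Sum.inr b) := by
  constructor
  · induction e using Sym2.ind with
    | _ x y =>
      intro h
      rw [SimpleGraph.mem_edgeSet, completeBipartiteGraph_adj] at h
      rcases x with a | b <;> rcases y with c | d
      · simp at h
      · exact ⟨a, d, rfl⟩
      · exact ⟨c, b, Sym2.eq_swap⟩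
      · simp at h
  · rintro ⟨a, b, rfl⟩
    rw [SimpleGraph.mem_edgeSet, completeBipartiteGraph_adj]
    simp

theorem not_both {n : ℕ} {a b c d : Fin n}
    (h : (s(Sum.inl a, Sum.inr b) : Sym2 (Fin n ⊕ Fin n)) ≠ s(Sum.inl c, Sum.inr d)) :
    ¬ ((a : ℕ) = (c : ℕ) ∧ (b : ℕ) = (d : ℕ)) := by
  intro hh
  exact h (by rw [Fin.ext hh.1, Fin.ext hh.2])

theorem vpos_inj (n : ℕ) : Function.Injective (vpos n) := by
  rintro (a | b) (c | d) h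
  · rw [Fin.ext (sv_inj a.2 c.2 h)]
  · exact absurd h (sv_ne_ev d.2)
  · exact absurd h.symm (sv_ne_ev b.2)
  · rw [Fin.ext (ev_inj b.2 d.2 h)]

/-- Edges with a common vertex meet only there. -/
theorem adj {n : ℕ} (a b c d : Fin n) (hne : ¬ ((a : ℕ) = (c : ℕ) ∧ (b : ℕ) = (d : ℕ)))
    (w : Fin n ⊕ Fin n) (hw : w ∈ (s(Sum.inl a, Sum.inr b) : Sym2 (Fin n ⊕ Fin n)))
    (hw' : w ∈ (s(Sum.inl c, Sum.inr d) : Sym2 (Fin n ⊕ Fin n))) :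
    Arc n a b ∩ Arc n c d ⊆ {vpos n w} := by
  rintro z ⟨hz, hz'⟩
  rw [mem_singleton_iff]
  obtain ⟨h1, h2⟩ := inter_adj a.2 b.2 c.2 d.2 hne hz hz'
  rcases Sym2.mem_iff.1 hw with rfl | rfl
  · rcases Sym2.mem_iff.1 hw' with h3 | h3
    · exact h1 (congrArg Fin.val (Sum.inl_injective h3))
    · exact absurd h3 (by simp)
  · rcases Sym2.mem_iff.1 hw' with h3 | h3
    · exact absurd h3 (by simp)
    · exact h2 (congrArg Fin.val (Sum.inr_injective h3))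

/-- The common points of two edges. -/
theorem inter {n : ℕ} (a b c d : Fin n) (hne : ¬ ((a : ℕ) = (c : ℕ) ∧ (b : ℕ) = (d : ℕ))) :
    ∃ z z', Arc n a b ∩ Arc n c d ⊆ {z, z'} ∧ z ∈ Arc n a b ∩ Arc n c d ∧
      (((a : ℕ) = (c : ℕ) ∨ (b : ℕ) = (d : ℕ)) ∧ z = z' ∧ (∃ w, z = vpos n w) ∨
      (CrossAt 0 (Arc n a b) (Arc n c d) z ∨ CrossAt 0 (Arc n c d) (Arc n a b) z) ∧
      (CrossAt 0 (Arc n a b) (Arc n c d) z' ∨ CrossAt 0 (Arc n c d) (Arc n a b) z')) := by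
  by_cases h1 : (a : ℕ) = c
  · refine ⟨sv n a, sv n a, ?_, ⟨sv_mem b.2, ?_⟩, Or.inl ⟨Or.inl h1, rfl, Sum.inl a, rfl⟩⟩
    · rintro z ⟨hz, hz'⟩
      left
      exact (inter_adj a.2 b.2 c.2 d.2 hne hz hz').1 h1
    · rw [h1]
      exact sv_mem d.2
  by_cases h2 : (b : ℕ) = d
  · refine ⟨ev n b, ev n b, ?_, ⟨ev_mem b.2, ?_⟩, Or.inl ⟨Or.inr h2, rfl, Sum.inr b, rfl⟩⟩
    · rintro z ⟨hz, hz'⟩
      left
      exact (inter_adj a.2 b.2 c.2 d.2 hne hz hz').2 h2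
    · rw [h2]
      exact ev_mem d.2
  obtain ⟨z, z', h3, h4, h5, h6⟩ := inter_ind a.2 b.2 c.2 d.2 h1 h2
  exact ⟨z, z', h3, h4, Or.inr ⟨h5, h6⟩⟩

/-- Three edges. -/
theorem three {n : ℕ} (a b c d p q : Fin n) (h1 : ¬ ((a : ℕ) = (c : ℕ) ∧ (b : ℕ) = (d : ℕ)))
    (h2 : ¬ ((c : ℕ) = (p : ℕ) ∧ (d : ℕ) = (q : ℕ)))
    (h3 : ¬ ((a : ℕ) = (p : ℕ) ∧ (b : ℕ) = (q : ℕ))) {z : ℂ} (hz : z ∈ Arc n a b)
    (hz' : z ∈ Arc n c d) (hz'' : z ∈ Arc n p q) : ∃ w, z = vpos n w := by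
  have g1 := inter_adj a.2 b.2 c.2 d.2 h1 hz hz'
  have g2 := inter_adj c.2 d.2 p.2 q.2 h2 hz' hz''
  have g3 := inter_adj a.2 b.2 p.2 q.2 h3 hz hz''
  by_cases e1 : (a : ℕ) = c
  · exact ⟨Sum.inl a, g1.1 e1⟩
  by_cases e2 : (b : ℕ) = d
  · exact ⟨Sum.inr b, g1.2 e2⟩
  by_cases e3 : (c : ℕ) = p
  · exact ⟨Sum.inl c, g2.1 e3⟩
  by_cases e4 : (d : ℕ) = q
  · exact ⟨Sum.inr d, g2.2 e4⟩
  by_cases e5 : (a : ℕ) = p
  · exact ⟨Sum.inl a, g3.1 e5⟩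
  by_cases e6 : (b : ℕ) = q
  · exact ⟨Sum.inr b, g3.2 e6⟩
  exfalso
  by_cases f1 : (a : ℕ) < c ∧ (a : ℕ) < p
  · exact triple a.2 b.2 c.2 d.2 p.2 q.2 f1.1 f1.2 e3 e2 e6 e4 hz hz' hz''
  by_cases f2 : (c : ℕ) < a ∧ (c : ℕ) < p
  · exact triple c.2 d.2 a.2 b.2 p.2 q.2 f2.1 f2.2 e5 (Ne.symm e2) e4 e6 hz' hz hz''
  exact triple p.2 q.2 a.2 b.2 c.2 d.2 (by omega) (by omega) e1 (Ne.symm e6) (Ne.symm e4) e2
    hz'' hz hz'

end Pool.Agent.KTwo
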