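import Mathlib

/-!
# The height functions of a drawing of the complete bipartite graph

The angle is measured in units, a full turn has `per n = 2 n + 2` units; the height is the logarithm
of the distance from the origin.  The edge `(i, j)` consists of two strands, `al n i j` over
`[0, 2 j + 1]` and `be n i j` over `[2 j - 2 n, 2 j + 1]`.
-/

set_option autoImplicit false

namespace Pool.Agent.KTwo

open Set

/-- The units of a full turn. -/
noncomputable def per (n : ℕ) : ℝ := 2 * n + 2

/-- The height of a band. -/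
noncomputable def bd (n : ℕ) : ℝ := 10 * (n + 1) ^ 2

/-- A large height. -/
noncomputable def mx (n : ℕ) : ℝ := (n + 1) * bd n

/-- The first strand. -/
noncomputable def al (n i j : ℕ) (s : ℝ) : ℝ := i * bd n - s * (2 * j + 1 - s)

/-- The second strand. -/
noncomputable def be (n i j : ℕ) (s : ℝ) : ℝ :=
  i * bd n + (2 * j + 1 - s) + (mx n - i * bd n) * max 0 (2 * j - 2 * n + 1 - s)

/-- The edge `(i, j)` has a point with angle `φ` and height `y`, `0 ≤ φ < per n`. -/
def On (n i j : ℕ) (φ y : ℝ) : Prop :=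
  (φ ≤ 2 * j + 1 ∧ (y = al n i j φ ∨ y = be n i j φ)) ∨
    (2 * j + 2 ≤ φ ∧ y = be n i j (φ - per n))

theorem bd_ge (n : ℕ) : 10 * (n : ℝ) ^ 2 + 20 * n + 10 = bd n := by
  unfold bd; ring

theorem n_nonneg (n : ℕ) : (0 : ℝ) ≤ n := Nat.cast_nonneg n

theorem bd_pos (n : ℕ) : 0 < bd n := by
  have := n_nonneg n
  rw [← bd_ge]
  positivity

/-- Real form of `j < n`. -/
theorem cast_succ_le {j n : ℕ} (h : j < n) : (j : ℝ) + 1 ≤ n := by exact_mod_cast h

/-- Bands. -/
theorem band_le {i i' : ℕ} (n : ℕ) (h : i < i') : (i : ℝ) * bd n + bd n ≤ i' * bd n := by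
  have h1 := cast_succ_le h
  nlinarith [bd_pos n]

/-- The top band. -/
theorem band_top {i n : ℕ} (h : i < n) : (i : ℝ) * bd n + 2 * bd n ≤ mx n := by
  have h1 := cast_succ_le h
  unfold mx
  nlinarith [bd_pos n]

theorem be_flat {n i j : ℕ} {s : ℝ} (hs : 2 * (j : ℝ) - 2 * n + 1 ≤ s) :
    be n i j s = i * bd n + (2 * j + 1 - s) := by
  unfold be
  rw [max_eq_left (by linarith)]
  ring

theorem be_pos {n i j : ℕ} {s : ℝ} (hj : j < n) (hs : 0 ≤ s) :
    be n i j s = i * bd n + (2 * j + 1 - s) := by
  have := cast_succ_le hj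
  exact be_flat (by linarith)

theorem be_steep {n i j : ℕ} {s : ℝ} (hs : s ≤ 2 * (j : ℝ) - 2 * n + 1) :
    be n i j s = i * bd n + (2 * j + 1 - s) + (mx n - i * bd n) * (2 * j - 2 * n + 1 - s) := by
  unfold be
  rw [max_eq_right (by linarith)]

/-- The wrapped strand, lower bound. -/
theorem be_ge {n i j : ℕ} {s : ℝ} (hi : i < n) : i * bd n + (2 * j + 1 - s) ≤ be n i j s := by
  have h1 := band_top hi
  have h2 := bd_pos n
  have h3 : 0 ≤ (mx n - i * bd n) * max 0 (2 * (j : ℝ) - 2 * n + 1 - s) :=
    mul_nonneg (by linarith) (le_max_left _ _)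
  unfold be
  linarith

/-- Lower bound of the first strand. -/
theorem al_ge {n i j : ℕ} {s : ℝ} (hj : j < n) (h0 : 0 ≤ s) (h1 : s ≤ 2 * j + 1) :
    (i : ℝ) * bd n - 4 * (n : ℝ) ^ 2 ≤ al n i j s := by
  have h2 := cast_succ_le hj
  have h3 := n_nonneg j
  unfold al
  have : s * (2 * j + 1 - s) ≤ (2 * n) * (2 * n) := by
    apply mul_le_mul <;> linarith
  nlinarith

/-- Upper bound of the first strand. -/
theorem al_le {n i j : ℕ} {s : ℝ} (h0 : 0 ≤ s) (h1 : s ≤ 2 * j + 1) :
    al n i j s ≤ i * bd n := by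
  unfold al
  have : 0 ≤ s * (2 * j + 1 - s) := mul_nonneg h0 (by linarith)
  linarith

/-- Lower bound of all strands. -/
theorem on_ge {n i j : ℕ} {φ y : ℝ} (hi : i < n) (hj : j < n) (h0 : 0 ≤ φ) (h1 : φ < per n)
    (h : On n i j φ y) : (i : ℝ) * bd n - 4 * (n : ℝ) ^ 2 ≤ y := by
  have hn := n_nonneg n
  have h4 : 0 ≤ 4 * (n : ℝ) ^ 2 := by positivity
  have hj0 := n_nonneg j
  unfold per at h1
  rcases h with ⟨h2, rfl | rfl⟩ | ⟨h2, rfl⟩
  · exact al_ge hj h0 h2
  · have := be_ge (n := n) (j := j) (s := φ) hi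
    linarith
  · have := be_ge (n := n) (j := j) (s := φ - per n) hi
    unfold per at this ⊢
    linarith

/-- The same first number. -/
theorem key_eq {n i j j' : ℕ} (hi : i < n) (hj' : j' < n) (hjj : j < j') {φ y : ℝ} (h0 : 0 ≤ φ)
    (h1 : φ < per n) (he : On n i j φ y) (hf : On n i j' φ y) : φ = 0 ∧ y = i * bd n := by
  have hj : j < n := hjj.trans hj'
  have c1 := cast_succ_le hjj
  have c2 := cast_succ_le hj'
  have c3 := n_nonneg j
  unfold per at h1
  rcases he with ⟨h2, he⟩ | ⟨h2, he⟩ <;> rcases hf with ⟨h3, hf⟩ | ⟨h3, hf⟩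
  · rcases he with he | he <;> rcases hf with hf | hf
    · have h4 : φ * (2 * (j' : ℝ) - 2 * j) = 0 := by
        unfold al at he hf
        linarith
      rcases mul_eq_zero.1 h4 with h5 | h5
      · refine ⟨h5, ?_⟩
        rw [he, h5]
        unfold al
        ring
      · exfalso; linarith
    · exfalso
      have := al_le (n := n) (i := i) h0 h2
      rw [be_pos hj' h0] at hf
      linarith
    · exfalso
      rw [be_pos hj h0] at he
      have := al_le (n := n) (i := i) (j := j') h0 h3
      unfold al at hf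
      have h5 : φ * (2 * j' + 1 - φ) = - (2 * j + 1 - φ) := by linarith
      have h6 : 0 ≤ φ * (2 * j' + 1 - φ) := mul_nonneg h0 (by linarith)
      have h7 : φ = 2 * j + 1 := by linarith
      rw [h7] at h6 h5
      have h8 : 0 < (2 * (j : ℝ) + 1) * (2 * j' + 1 - (2 * j + 1)) := by
        apply mul_pos <;> linarith
      linarith
    · exfalso
      rw [be_pos hj h0] at he
      rw [be_pos hj' h0] at hf
      linarith
  · exfalso; linarith
  · exfalso
    have g1 := be_ge (n := n) (j := j) (s := φ - per n) hi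
    unfold per at g1 he
    rcases hf with hf | hf
    · have := al_le (n := n) (i := i) h0 h3
      linarith
    · rw [be_pos hj' h0] at hf
      linarith
  · exfalso
    unfold be at he hf
    have g1 : max 0 (2 * (j : ℝ) - 2 * n + 1 - (φ - per n)) ≤
        max 0 (2 * (j' : ℝ) - 2 * n + 1 - (φ - per n)) :=
      max_le_max le_rfl (by linarith)
    have g2 := band_top hi
    have g3 := bd_pos n
    have g4 := mul_le_mul_of_nonneg_left g1 (show 0 ≤ mx n - i * bd n by linarith)
    linarith

/-- Different first numbers. -/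
theorem key_lt {n i j i' j' : ℕ} (hi : i < n) (hj : j < n) (hi' : i' < n) (hj' : j' < n)
    (hii : i < i') {φ y : ℝ} (h0 : 0 ≤ φ) (h1 : φ < per n) (he : On n i j φ y)
    (hf : On n i' j' φ y) :
    (j = j' ∧ φ = 2 * j + 2 ∧ y = mx n + (2 * n + 1)) ∨
      (j ≠ j' ∧ 2 * (j : ℝ) + 2 < φ ∧ φ < 2 * j + 3 ∧ y = be n i j (φ - per n)) := by
  have c0 := n_nonneg n
  have c1 := cast_succ_le hj
  have c2 := cast_succ_le hj'
  have c3 := n_nonneg j
  have b1 := band_le n hii
  have b2 := band_top hi'
  have b3 := bd_ge n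
  have b4 := bd_pos n
  have lo := on_ge hi' hj' h0 h1 hf
  have hp : per n = 2 * n + 2 := rfl
  have hsq : 0 ≤ (n : ℝ) ^ 2 := by positivity
  rcases he with ⟨h2, he⟩ | ⟨h2, he⟩
  · exfalso
    have : y ≤ i * bd n + (2 * j + 1) := by
      rcases he with he | he
      · have := al_le (n := n) (i := i) h0 h2
        linarith
      · rw [be_pos hj h0] at he
        linarith
    nlinarith
  · have h3 : φ < 2 * j + 3 := by
      by_contra h3
      push Not at h3
      rw [be_flat (by rw [hp]; linarith)] at he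
      rw [hp] at he h1
      nlinarith
    rcases h2.lt_or_eq with h4 | h4
    · right
      refine ⟨?_, h4, h3, he⟩
      rintro rfl
      rcases hf with ⟨h5, -⟩ | ⟨-, hf⟩
      · linarith
      · rw [be_steep (by rw [hp]; linarith)] at he hf
        have h6 : ((i' : ℝ) * bd n - i * bd n) * (1 - (2 * (j : ℝ) - 2 * n + 1 - (φ - per n))) = 0 := by
          linarith
        have h7 : 0 < ((i' : ℝ) * bd n - i * bd n) *
            (1 - (2 * (j : ℝ) - 2 * n + 1 - (φ - per n))) := by
          apply mul_pos
          · linarith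
          · rw [hp]; linarith
        linarith
    · left
      have hy : y = mx n + (2 * n + 1) := by
        rw [he, be_steep (by rw [hp]; linarith), ← h4, hp]
        ring
      refine ⟨?_, h4.symm, hy⟩
      rcases hf with ⟨h5, hf⟩ | ⟨h5, hf⟩
      · exfalso
        have : y ≤ i' * bd n + (2 * j' + 1) := by
          rcases hf with hf | hf
          · have := al_le (n := n) (i := i') h0 h5
            linarith
          · rw [be_pos hj' h0] at hf
            linarith
        nlinarith
      · by_contra hne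
        have h6 : 2 * (j' : ℝ) + 3 ≤ φ := by
          rw [← h4] at h5 ⊢
          have h7 : (j' : ℝ) ≤ j := by linarith
          have h8 : j' ≤ j := by exact_mod_cast h7
          have h9 : j' < j := by omega
          have := cast_succ_le h9
          linarith
        rw [be_flat (by rw [hp]; linarith)] at hf
        rw [hp] at hf
        nlinarith

end Pool.Agent.KTwo
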