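import Pool.Agent.Hhelper93.KTwo.Draw

/-!
# The common points of the edges
-/

set_option autoImplicit false

namespace Pool.Agent.KTwo

open Set
open Pool.Agent.KBip (JArc)
open Pool.Agent.CLow3 (TopGraph CrossAt)

/-- Two edges with the same start vertex. -/
theorem same_start {n i j j' : ℕ} {z : ℂ} (hi : i < n) (hj' : j' < n) (hjj : j < j')
    (h : z ∈ Arc n i j) (h' : z ∈ Arc n i j') : z = sv n i := by
  obtain ⟨φ, y, h0, h1, h2, h3, rfl⟩ := common (hjj.trans hj') hj' h h'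
  obtain ⟨rfl, rfl⟩ := key_eq hi hj' hjj h0 h1 h2 h3
  rfl

/-- Two edges with the same end vertex. -/
theorem same_end {n i j i' : ℕ} {z : ℂ} (hi' : i' < n) (hj : j < n) (hii : i < i')
    (h : z ∈ Arc n i j) (h' : z ∈ Arc n i' j) : z = ev n j := by
  obtain ⟨φ, y, h0, h1, h2, h3, rfl⟩ := common hj hj h h'
  rcases key_lt (hii.trans hi') hj hi' hj hii h0 h1 h2 h3 with ⟨-, h4, h5⟩ | ⟨h4, -⟩
  · rw [h4, h5]
    rfl
  · exact absurd rfl h4

theorem window_lt {n j : ℕ} {φ : ℝ} (hj : j < n) (h : φ ≤ 2 * j + 3) : φ < per n := by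
  have := cast_succ_le hj
  unfold per
  linarith

theorem st_mem {n i j : ℕ} {φ : ℝ} (hj : j < n) (h1 : 2 * (j : ℝ) + 2 ≤ φ) (h2 : φ < per n) :
    E n φ (st n i j φ) ∈ Arc n i j := by
  have := n_nonneg j
  exact on_mem hj (by linarith) h2 (window_on h1)

theorem al_mem {n i j : ℕ} {φ : ℝ} (hj : j < n) (h1 : 0 ≤ φ) (h2 : φ ≤ 2 * (j : ℝ) + 1) :
    E n φ (al n i j φ) ∈ Arc n i j := by
  have := cast_succ_le hj
  exact on_mem hj h1 (by unfold per; linarith) (Or.inl ⟨h2, Or.inl rfl⟩)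

theorem be_mem {n i j : ℕ} {φ : ℝ} (hj : j < n) (h1 : 0 ≤ φ) (h2 : φ ≤ 2 * (j : ℝ) + 1) :
    E n φ (be n i j φ) ∈ Arc n i j := by
  have := cast_succ_le hj
  exact on_mem hj h1 (by unfold per; linarith) (Or.inl ⟨h2, Or.inr rfl⟩)

/-- A common point of two edges without common end is on the steep part of the lower one. -/
theorem common_window {n i j i' j' : ℕ} {z : ℂ} (hj : j < n) (hi' : i' < n) (hj' : j' < n)
    (hii : i < i') (hne : j ≠ j') (h : z ∈ Arc n i j) (h' : z ∈ Arc n i' j') :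
    ∃ φ, 2 * (j : ℝ) + 2 < φ ∧ φ < 2 * j + 3 ∧ z = E n φ (st n i j φ) ∧
      ((j < j' ∧ (st n i j φ = al n i' j' φ ∨ st n i j φ = be n i' j' φ)) ∨
        (j' < j ∧ st n i j φ = st n i' j' φ)) := by
  obtain ⟨φ, y, h0, h1, h2, h3, rfl⟩ := common hj hj' h h'
  rcases key_lt (hii.trans hi') hj hi' hj' hii h0 h1 h2 h3 with ⟨h4, -⟩ | ⟨-, h4, h5, h6⟩
  · exact absurd h4 hne
  · refine ⟨φ, h4, h5, ?_, ?_⟩
    · rw [h6]; rfl
    · have h7 := on_window hj hne h4 h5 h3
      rw [h6] at h7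
      exact h7

/-- The common points of `(i, j)` and `(i', j')`, `i < i'`, `j < j'`. -/
theorem inter_lt {n i j i' j' : ℕ} (hi' : i' < n) (hj' : j' < n) (hii : i < i') (hjj : j < j') :
    ∃ z z', Arc n i j ∩ Arc n i' j' ⊆ {z, z'} ∧ z ∈ Arc n i j ∩ Arc n i' j' ∧
      CrossAt 0 (Arc n i' j') (Arc n i j) z ∧ CrossAt 0 (Arc n i' j') (Arc n i j) z' := by
  have hj : j < n := hjj.trans hj'
  have c1 := cast_succ_le hjj
  have c2 := n_nonneg j
  obtain ⟨m, hm⟩ := crossA (n := n) hi' hj' hii hjj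
  obtain ⟨m', hm'⟩ := crossC (n := n) hi' hj' hii hjj
  have hS : ∀ φ : ℝ, 2 * (j : ℝ) + 2 ≤ φ → φ ≤ 2 * j + 3 → E n φ (st n i j φ) ∈ Arc n i j :=
    fun φ h1 h2 => st_mem hj h1 (window_lt hj h2)
  refine ⟨E n m (st n i j m), E n m' (st n i j m'), ?_, ⟨?_, ?_⟩, ?_, ?_⟩
  · rintro z ⟨h1, h2⟩
    obtain ⟨φ, h3, h4, rfl, h5⟩ := common_window hj hi' hj' hii hjj.ne h1 h2
    rcases h5 with ⟨-, h5 | h5⟩ | ⟨h5, -⟩
    · left
      rw [hm.unique h3.le h4.le h5]
    · right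
      rw [hm'.unique h3.le h4.le h5]
      rfl
    · omega
  · exact hS m hm.1.le hm.2.1.le
  · rw [hm.2.2.1]
    exact al_mem hj' (by linarith [hm.1]) (by linarith [hm.2.1])
  · exact crossAt_of (st_cont _ _ _) (al_cont _ _ _) hm hS
      fun φ h1 h2 => al_mem hj' (by linarith) (by linarith)
  · exact crossAt_of (st_cont _ _ _) (be_cont _ _ _) hm' hS
      fun φ h1 h2 => be_mem hj' (by linarith) (by linarith)

/-- The common points of `(i, j)` and `(i', j')`, `i < i'`, `j' < j`. -/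
theorem inter_gt {n i j i' j' : ℕ} (hi' : i' < n) (hj : j < n) (hii : i < i') (hjj : j' < j) :
    ∃ z, Arc n i j ∩ Arc n i' j' ⊆ {z} ∧ z ∈ Arc n i j ∩ Arc n i' j' ∧
      CrossAt 0 (Arc n i' j') (Arc n i j) z := by
  have hj' : j' < n := hjj.trans hj
  have c1 := cast_succ_le hjj
  have c2 := n_nonneg j
  obtain ⟨m, hm⟩ := crossD (n := n) hi' hj hii hjj
  have hS : ∀ φ : ℝ, 2 * (j : ℝ) + 2 ≤ φ → φ ≤ 2 * j + 3 → E n φ (st n i j φ) ∈ Arc n i j :=
    fun φ h1 h2 => st_mem hj h1 (window_lt hj h2)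
  refine ⟨E n m (st n i j m), ?_, ⟨?_, ?_⟩, ?_⟩
  · rintro z ⟨h1, h2⟩
    obtain ⟨φ, h3, h4, rfl, h5⟩ := common_window hj hi' hj' hii hjj.ne' h1 h2
    rcases h5 with ⟨h5, -⟩ | ⟨-, h5⟩
    · omega
    · rw [hm.unique h3.le h4.le h5]
      rfl
  · exact hS m hm.1.le hm.2.1.le
  · rw [hm.2.2.1]
    exact st_mem hj' (by linarith [hm.1]) (window_lt hj hm.2.1.le)
  · exact crossAt_of (st_cont _ _ _) (st_cont _ _ _) hm hS
      fun φ h1 h2 => st_mem hj' (by linarith) (window_lt hj h2)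

/-- Two edges without common end. -/
theorem inter_ind {n i j i' j' : ℕ} (hi : i < n) (hj : j < n) (hi' : i' < n) (hj' : j' < n)
    (h1 : i ≠ i') (h2 : j ≠ j') :
    ∃ z z', Arc n i j ∩ Arc n i' j' ⊆ {z, z'} ∧ z ∈ Arc n i j ∩ Arc n i' j' ∧
      (CrossAt 0 (Arc n i j) (Arc n i' j') z ∨ CrossAt 0 (Arc n i' j') (Arc n i j) z) ∧
      (CrossAt 0 (Arc n i j) (Arc n i' j') z' ∨ CrossAt 0 (Arc n i' j') (Arc n i j) z') := by
  rcases lt_or_gt_of_ne h1 with h3 | h3 <;> rcases lt_or_gt_of_ne h2 with h4 | h4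
  · obtain ⟨z, z', g1, g2, g3, g4⟩ := inter_lt hi' hj' h3 h4
    exact ⟨z, z', g1, g2, Or.inr g3, Or.inr g4⟩
  · obtain ⟨z, g1, g2, g3⟩ := inter_gt hi' hj h3 h4
    exact ⟨z, z, by simpa using g1, g2, Or.inr g3, Or.inr g3⟩
  · obtain ⟨z, g1, g2, g3⟩ := inter_gt hi hj' h3 h4
    rw [Set.inter_comm] at g1 g2
    exact ⟨z, z, by simpa using g1, g2, Or.inl g3, Or.inl g3⟩
  · obtain ⟨z, z', g1, g2, g3, g4⟩ := inter_lt hi hj h3 h4
    rw [Set.inter_comm] at g1 g2
    exact ⟨z, z', g1, g2, Or.inl g3, Or.inl g4⟩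

/-- Two different edges with a common end. -/
theorem inter_adj {n i j i' j' : ℕ} {z : ℂ} (hi : i < n) (hj : j < n) (hi' : i' < n) (hj' : j' < n)
    (hne : ¬ (i = i' ∧ j = j')) (hz : z ∈ Arc n i j) (hz' : z ∈ Arc n i' j') :
    (i = i' → z = sv n i) ∧ (j = j' → z = ev n j) := by
  refine ⟨?_, ?_⟩
  · rintro rfl
    have h : j ≠ j' := fun h => hne ⟨rfl, h⟩
    rcases lt_or_gt_of_ne h with h4 | h4
    · exact same_start hi hj' h4 hz hz'
    · exact same_start hi hj h4 hz' hz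
  · rintro rfl
    have h : i ≠ i' := fun h => hne ⟨h, rfl⟩
    rcases lt_or_gt_of_ne h with h4 | h4
    · exact same_end hi' hj h4 hz hz'
    · exact same_end hi hj h4 hz' hz

theorem sv_mem {n i j : ℕ} (hj : j < n) : sv n i ∈ Arc n i j := by
  have h0 := n_nonneg j
  have := al_mem (n := n) (i := i) hj le_rfl (by linarith)
  have h1 : al n i j 0 = i * bd n := by unfold al; ring
  rw [h1] at this
  exact this

theorem ev_mem {n i j : ℕ} (hj : j < n) : ev n j ∈ Arc n i j := by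
  have := st_mem (n := n) (i := i) hj le_rfl (window_lt hj (by linarith))
  rw [st_eq (by linarith)] at this
  unfold ev
  convert this using 2
  ring

/-- A start vertex on an edge. -/
theorem avoid_start {n i j i' : ℕ} (hi : i < n) (hj : j < n) (hi' : i' < n)
    (h : sv n i' ∈ Arc n i j) : i' = i := by
  by_contra hne
  have hj0 := n_nonneg j
  have hb := bd_ge n
  have hn := n_nonneg n
  have c1 := cast_succ_le hj
  have hsq : 0 ≤ (n : ℝ) ^ 2 := by positivity
  obtain ⟨φ, y, h0, h1, h2, h3⟩ := mem_on hj h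
  obtain ⟨h4, h5⟩ := E_inj le_rfl (per_pos n) h0 h1 h3
  subst h4
  rw [← h5] at h2
  rcases h2 with ⟨-, h2 | h2⟩ | ⟨h2, -⟩
  · unfold al at h2
    rcases lt_or_gt_of_ne hne with h6 | h6
    · have := band_le n h6
      linarith
    · have := band_le n h6
      linarith
  · rw [be_pos hj le_rfl] at h2
    rcases lt_or_gt_of_ne hne with h6 | h6
    · have := band_le n h6
      nlinarith
    · have := band_le n h6
      nlinarith
  · linarith

/-- An end vertex on an edge. -/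
theorem avoid_end {n i j j' : ℕ} (hi : i < n) (hj : j < n) (hj' : j' < n)
    (h : ev n j' ∈ Arc n i j) : j' = j := by
  have hj0 := n_nonneg j
  have hj0' := n_nonneg j'
  have hb := bd_ge n
  have hn := n_nonneg n
  have c1 := cast_succ_le hj
  have c1' := cast_succ_le hj'
  have hsq : 0 ≤ (n : ℝ) ^ 2 := by positivity
  have b2 := band_top hi
  have b4 := bd_pos n
  obtain ⟨φ, y, h0, h1, h2, h3⟩ := mem_on hj h
  obtain ⟨h4, h5⟩ := E_inj (by linarith) (window_lt hj' (by linarith)) h0 h1 h3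
  subst h4
  rw [← h5] at h2
  rcases h2 with ⟨g, h2 | h2⟩ | ⟨g, h2⟩
  · exfalso
    have := al_le (n := n) (i := i) h0 g
    linarith
  · exfalso
    rw [be_pos hj h0] at h2
    nlinarith
  · by_contra hne
    have h6 : 2 * (j : ℝ) + 3 ≤ 2 * j' + 2 := by
      have h7 : (j : ℝ) ≤ j' := by linarith
      have h8 : j ≤ j' := by exact_mod_cast h7
      have h9 : j < j' := by omega
      have := cast_succ_le h9
      linarith
    have h7 := st_flat (n := n) (i := i) h6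
    unfold st at h7
    rw [h7] at h2
    nlinarith

theorem sv_inj {n i i' : ℕ} (hi : i < n) (hi' : i' < n) (h : sv n i = sv n i') : i = i' := by
  have hn : 0 < n := by omega
  exact avoid_start (j := 0) hi' hn hi (by rw [h]; exact sv_mem hn)

theorem ev_inj {n j j' : ℕ} (hj : j < n) (hj' : j' < n) (h : ev n j = ev n j') : j = j' := by
  have hn : 0 < n := by omega
  exact avoid_end (i := 0) hn hj' hj (by rw [h]; exact ev_mem hj')

theorem sv_ne_ev {n i j : ℕ} (hj : j < n) : sv n i ≠ ev n j := by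
  intro h
  have hj0 := n_nonneg j
  obtain ⟨h1, -⟩ := E_inj le_rfl (per_pos n) (by linarith) (window_lt hj (by linarith)) h
  linarith

/-- No point lies on three edges, but for the vertices. -/
theorem triple {n i j i' j' i'' j'' : ℕ} {z : ℂ} (hi : i < n) (hj : j < n) (hi' : i' < n)
    (hj' : j' < n) (hi'' : i'' < n) (hj'' : j'' < n) (h1 : i < i') (h2 : i < i'')
    (h3 : i' ≠ i'') (g1 : j ≠ j') (g2 : j ≠ j'') (g3 : j' ≠ j'') (hz : z ∈ Arc n i j)
    (hz' : z ∈ Arc n i' j') (hz'' : z ∈ Arc n i'' j'') : False := by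
  have hj0 := n_nonneg j
  obtain ⟨φ, k1, k2, rfl, -⟩ := common_window hj hi' hj' h1 g1 hz hz'
  have main : ∀ {a b c d : ℕ}, b < n → c < n → d < n → a < c → b ≠ d → j ≠ b →
      E n φ (st n i j φ) ∈ Arc n a b → E n φ (st n i j φ) ∈ Arc n c d → False := by
    intro a b c d hb hc hd hac hbd hjb ha hc'
    have hb0 := n_nonneg b
    obtain ⟨ψ, l1, l2, l3, -⟩ := common_window hb hc hd hac hbd ha hc'
    obtain ⟨l4, -⟩ := E_inj (by linarith) (window_lt hj k2.le) (by linarith)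
      (window_lt hb l2.le) l3
    rw [← l4] at l1 l2
    rcases lt_or_gt_of_ne hjb with h | h
    · have := cast_succ_le h
      linarith
    · have := cast_succ_le h
      linarith
  rcases lt_or_gt_of_ne h3 with h4 | h4
  · exact main hj' hi'' hj'' h4 g3 g1 hz' hz''
  · exact main hj'' hi' hj' h4 g3.symm g2 hz'' hz'

end Pool.Agent.KTwo
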